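import Pool.Agent.W650.HL.Stm

/-!
# HL-LEGS: the weighted colour count of a spider
-/

set_option autoImplicit false

namespace Pool.Agent.W357.HL

open Pool.W650.HL Finset

theorem pos_dg {V : Type} [Fintype V] {G : SimpleGraph V} (hG : G.Connected) {u c : V}
    (h : u ≠ c) : dg G u ≠ 0 := by
  intro h0
  unfold dg at h0
  rw [Set.ncard_eq_zero (Set.toFinite _)] at h0
  obtain ⟨p⟩ := hG.preconnected u c
  cases p with
  | nil => exact h rfl
  | cons hadj _ =>
    have : _ ∈ G.neighborSet u := hadj
    rw [h0] at this
    exact this

theorem gen (h1 : LEAFREM) (h2 : DELTREE) (h3 : EXLEAF) (h4 : DGLEAF) :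
    ∀ (n : ℕ) (V : Type) [Fintype V], Fintype.card V = n → ∀ (r : ℕ) (a : Fin r → ℝ)
      (G : SimpleGraph V) (c : V), G.IsTree → (∀ v, v ≠ c → dg G v ≤ 2) →
      ∀ (F : V → Fin r → ℝ) (K : V → ℕ),
      (∀ v, v ≠ c → dg G v = 1 → F v = U a (K v)) →
      (∀ v, v ≠ c → dg G v = 2 → F v = (fun _ => 1) ∧ K v = 0) → K c = 0 →
      ∃ L : List ℕ, L.length = dg G c ∧ L.sum + 1 = Fintype.card V + ∑ v, K v ∧
        Zf a G F = ∑ i, a i * (F c i * (L.map (fun k => U a k i)).prod) := by
  intro n
  induction n with
  | zero =>
    intro V _ hcard r a G c
    have := Fintype.card_eq_zero_iff.1 hcard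
    exact isEmptyElim c
  | succ n ih =>
    intro V _ hcard r a G c hG hdeg F K hF1 hF2 hKc
    classical
    by_cases hn : Fintype.card V = 1
    · -- one vertex
      have : Subsingleton V := Fintype.card_le_one_iff_subsingleton.1 hn.le
      let _ : Unique V := ⟨⟨c⟩, fun x => Subsingleton.elim _ _⟩
      have hadj : ∀ x y : V, ¬ G.Adj x y := fun x y h => h.ne (Subsingleton.elim _ _)
      refine ⟨[], ?_, ?_, ?_⟩
      · unfold dg
        symm
        rw [List.length_nil, Set.ncard_eq_zero (Set.toFinite _)]
        ext x
        simp
      · have : ∑ v, K v = K c := by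
          rw [Fintype.sum_eq_single c]
          intro x hx
          exact absurd (Subsingleton.elim x c) hx
        rw [this, hKc, hn]
        rfl
      · unfold Zf
        have e1 : ∀ σ : V → Fin r, ∀ (D : Decidable (∀ u v, G.Adj u v → σ u ≠ σ v)),
            (@ite ℝ (∀ u v, G.Adj u v → σ u ≠ σ v) D (∏ v, (a (σ v) * F v (σ v))) 0)
              = a (σ c) * F c (σ c) := by
          intro σ D
          rw [if_pos (fun u v h => absurd h (hadj u v))]
          rw [Fintype.prod_eq_single c]
          intro x hx
          exact absurd (Subsingleton.elim x c) hx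
        simp only [e1]
        refine @Fintype.sum_equiv (V → Fin r) (Fin r) ℝ (_) _ _ (Equiv.funUnique V (Fin r))
          (fun σ : V → Fin r => a (σ c) * F c (σ c))
          (fun i => a i * (F c i * (List.map (fun k => U a k i) []).prod)) ?_
        intro σ
        have : (Equiv.funUnique V (Fin r)) σ = σ c := by
          simp [Equiv.funUnique]
          exact congrArg σ (Subsingleton.elim _ _)
        rw [this]
        simp
    · have hc2 : 2 ≤ Fintype.card V := by
        have : Fintype.card V ≠ 0 := by omega
        omega
      obtain ⟨l, u, hlc, hl⟩ := h3 V G hG c hc2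
      have hdl : dg G l = 1 := (h4 V G l).2 ⟨u, hl⟩
      obtain ⟨hT, hdd⟩ := h2 V G l u hG hl
      have hul : u ≠ l := hl.1.ne'
      have hcl : c ≠ l := Ne.symm hlc
      have hFl : F l = U a (K l) := hF1 l hlc hdl
      have hM : Mop a (F l) = U a (K l + 1) := by
        rw [hFl]
        unfold U
        rw [Function.iterate_succ_apply']
      have hZ := h1 V r a G F l u hl
      rw [hM] at hZ
      have hcardV : Fintype.card {v : V // v ≠ l} = n := by
        have := Fintype.card_subtype_compl (fun v : V => v = l)
        simp only [Fintype.card_subtype_eq] at this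
        rw [this, hcard]
        omega
      have hsum : ∀ g : V → ℕ, ∑ v, g v = g l + ∑ v : {v : V // v ≠ l}, g v.1 :=
        fun g => Fintype.sum_eq_add_sum_subtype_ne g l
      by_cases huc : u = c
      · -- the neighbour is the centre
        subst huc
        obtain ⟨L, hL1, hL2, hL3⟩ := ih {v : V // v ≠ l} hcardV r a (del G l) ⟨u, hul⟩ hT
          (by
            intro v hv
            have hvu : v.1 ≠ u := fun h => hv (Subtype.ext h)
            rw [(hdd v).2 hvu]
            exact hdeg v.1 hvu)
          (fun v i => if v.1 = u then F u i * U a (K l + 1) i else F v.1 i)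
          (fun v => K v.1)
          (by
            intro v hv hd
            have hvu : v.1 ≠ u := fun h => hv (Subtype.ext h)
            rw [(hdd v).2 hvu] at hd
            funext i
            simp only [hvu, if_false]
            rw [hF1 v.1 hvu hd])
          (by
            intro v hv hd
            have hvu : v.1 ≠ u := fun h => hv (Subtype.ext h)
            rw [(hdd v).2 hvu] at hd
            refine ⟨?_, (hF2 v.1 hvu hd).2⟩
            funext i
            simp only [hvu, if_false]
            rw [(hF2 v.1 hvu hd).1])
          hKc
        refine ⟨(K l + 1) :: L, ?_, ?_, ?_⟩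
        · rw [List.length_cons, hL1]
          exact (hdd ⟨u, hul⟩).1 rfl
        · rw [List.sum_cons, hsum K]
          have := hL2
          rw [hcardV] at this
          rw [hcard]
          omega
        · rw [hZ, hL3]
          refine Fintype.sum_congr _ _ (fun i => ?_)
          simp only [if_true, List.map_cons, List.prod_cons]
          ring
      · -- the neighbour is not the centre
        have hdu : dg G u = 2 := by
          have e1 := (hdd ⟨u, hul⟩).1 rfl
          have e2 : dg (del G l) ⟨u, hul⟩ ≠ 0 := pos_dg hT.connected
            (c := ⟨c, hcl⟩) (fun h => huc (congrArg Subtype.val h))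
          have e3 := hdeg u huc
          have e4 : dg G (⟨u, hul⟩ : {v : V // v ≠ l}).1 = dg G u := rfl
          omega
        have hd1 : dg (del G l) ⟨u, hul⟩ = 1 := by
          have e1 := (hdd ⟨u, hul⟩).1 rfl
          have e4 : dg G (⟨u, hul⟩ : {v : V // v ≠ l}).1 = dg G u := rfl
          omega
        obtain ⟨hFu, hKu⟩ := hF2 u huc hdu
        obtain ⟨L, hL1, hL2, hL3⟩ := ih {v : V // v ≠ l} hcardV r a (del G l) ⟨c, hcl⟩ hT
          (by
            intro v hv
            have hvc : v.1 ≠ c := fun h => hv (Subtype.ext h)
            by_cases hvu : v.1 = u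
            · have : v = ⟨u, hul⟩ := Subtype.ext hvu
              rw [this, hd1]
              omega
            · rw [(hdd v).2 hvu]
              exact hdeg v.1 hvc)
          (fun v i => if v.1 = u then F u i * U a (K l + 1) i else F v.1 i)
          (fun v => if v.1 = u then K l + 1 else K v.1)
          (by
            intro v hv hd
            have hvc : v.1 ≠ c := fun h => hv (Subtype.ext h)
            by_cases hvu : v.1 = u
            · funext i
              simp only [hvu, if_true, hFu, one_mul]
            · rw [(hdd v).2 hvu] at hd
              funext i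
              simp only [hvu, if_false]
              rw [hF1 v.1 hvc hd])
          (by
            intro v hv hd
            have hvc : v.1 ≠ c := fun h => hv (Subtype.ext h)
            have hvu : v.1 ≠ u := by
              intro hvu
              have : v = ⟨u, hul⟩ := Subtype.ext hvu
              rw [this, hd1] at hd
              omega
            rw [(hdd v).2 hvu] at hd
            refine ⟨?_, ?_⟩
            · funext i
              simp only [hvu, if_false]
              rw [(hF2 v.1 hvc hd).1]
            · simp only [hvu, if_false]
              exact (hF2 v.1 hvc hd).2)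
          (by
            have : ¬ c = u := fun h => huc h.symm
            simp only [this, if_false]
            exact hKc)
        refine ⟨L, ?_, ?_, ?_⟩
        · rw [hL1]
          exact (hdd ⟨c, hcl⟩).2 (fun h => huc h.symm)
        · have e1 := hL2
          rw [hcardV] at e1
          have e2 : ∑ v : {v : V // v ≠ l}, (if v.1 = u then K l + 1 else K v.1) =
              (K l + 1) + ∑ v : {v : V // v ≠ l}, K v.1 := by
            have e3 : ∀ v : {v : V // v ≠ l}, (if v.1 = u then K l + 1 else K v.1) =
                (if v = ⟨u, hul⟩ then K l + 1 else 0) + K v.1 := by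
              intro v
              by_cases hvu : v.1 = u
              · have : v = ⟨u, hul⟩ := Subtype.ext hvu
                rw [if_pos hvu, if_pos this, hvu, hKu, add_zero]
              · have : ¬ v = ⟨u, hul⟩ := fun h => hvu (congrArg Subtype.val h)
                rw [if_neg hvu, if_neg this, zero_add]
            rw [Fintype.sum_congr _ _ e3, Finset.sum_add_distrib]
            simp
          rw [e2] at e1
          rw [hsum K, hcard]
          omega
        · rw [hZ, hL3]
          have : ¬ c = u := fun h => huc h.symm
          refine Fintype.sum_congr _ _ (fun i => ?_)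
          simp only [this, if_false]

/-- **HL-LEGS** -/
theorem legs (h1 : LEAFREM) (h2 : DELTREE) (h3 : EXLEAF) (h4 : DGLEAF) : LEGS := by
  intro V _ r a G c hG hdeg
  obtain ⟨L, hL1, hL2, hL3⟩ := gen h1 h2 h3 h4 _ V rfl r a G c hG hdeg (fun _ _ => 1)
    (fun _ => 0) (fun v _ _ => by funext i; simp [U]) (fun v _ _ => ⟨rfl, rfl⟩) rfl
  refine ⟨L, hL1, ?_, ?_⟩
  · rw [hL2]; simp
  · rw [hL3]
    refine Fintype.sum_congr _ _ (fun i => ?_)
    rw [one_mul]

end Pool.Agent.W357.HL
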